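import Mathlib
import Pool.Agent.Lib.H88W.Z3

/-!
Partial answer to Q1 of MP_1e80f3_gt, in every dimension `2 n`: the connected components of the space
of symplectic embeddings `B(l) → B(1)` in terms of compactly supported symplectomorphisms of the ball,
and an equivalent form of Q1.

Two embeddings `ψ₀`, `ψ₁` are in one component if and only if for every `a < l` there is a
symplectomorphism `Ψ` of `ℂⁿ` supported in the open unit ball with `ψ₁ = Ψ ∘ ψ₀` on `B(a)`; and `Ψ` may
then be chosen smoothly isotopic to the identity among such symplectomorphisms. So the space is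
connected if and only if each embedding, restricted to any smaller ball, extends to a compactly
supported symplectomorphism of the unit ball, isotopic to the identity or not. Further, `ψ₀` and `ψ₁` are
in one component if and only if their restrictions to every smaller ball are, and if and only if they
are in one component of the embeddings in the ball of radius `R` for every `R > 1`; in both conditions
components can be replaced by isotopy classes (paths of embeddings). So the set of the radii with a
connected space is closed under increasing limits.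

Proof (Lib/H88W). If: the conjugates of `Ψ` by `x ↦ u x + v` supported in the unit ball form a connected
family; for small `u` and suitable `v` the support misses `ψ₀(B(a))`; so the component of `Ψ ∘ ψ₀`
contains embeddings that agree with `ψ₀` on `B(a)`, for every `a < l`, and components are closed in the
`C^∞` compact-open topology. Only if: an embedding `φ` near `ψ` equals `h ∘ ψ` on `B(a)` with `h`
supported in the unit ball and isotopic to the identity (generating function of `φ ∘ ψ⁻¹` in the
coordinates of the midpoint, cut off, Cayley transform), so the relation on `B(a)` is open and closed.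
Larger balls: `φ ↦ R⁻¹ φ (R ·)` maps the embeddings of `B(l)` in `B(R)` to those of `B(l / R)` in `B(1)`,
and the image of `ψ` is joined to the restriction of `ψ` by the path `s ↦ s⁻¹ ψ (s ·)`, `1 ≤ s ≤ R`.
-/

namespace Pool.Agent.Results.MP_1e80f3_gt.ComponentsAreOrbits

open H88W Set Metric

/-- `ℂⁿ = ℝ²ⁿ`, `z j = x j + i y j`. -/
abbrev V (n : ℕ) := EuclideanSpace ℂ (Fin n)

theorem result (n : ℕ) (l : ℝ) (hl : 0 < l) :
    (∀ (r : ℝ) (Ψ : V n → V n), IsSympC r Ψ → Function.Bijective Ψ) ∧
    (∀ ψ₀ ψ₁ : Emb (V n) l 1,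
      (ψ₁ ∈ connectedComponent ψ₀ ↔ Related ψ₀ ψ₁ fun r _ => r < 1) ∧
      (ψ₁ ∈ connectedComponent ψ₀ ↔ Related ψ₀ ψ₁ fun r Ψ => r < 1 ∧ Isot r Ψ) ∧
      (ψ₁ ∈ connectedComponent ψ₀ ↔
        ∀ (a : ℝ) (h : a < l), 0 < a → res h.le ψ₁ ∈ connectedComponent (res h.le ψ₀)) ∧
      (ψ₁ ∈ connectedComponent ψ₀ ↔
        ∀ (a : ℝ) (h : a < l), 0 < a → Joined (res h.le ψ₀) (res h.le ψ₁)) ∧
      (ψ₁ ∈ connectedComponent ψ₀ ↔
        ∀ (R : ℝ) (h : 1 < R), wid h.le ψ₁ ∈ connectedComponent (wid h.le ψ₀)) ∧
      (ψ₁ ∈ connectedComponent ψ₀ ↔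
        ∀ (R : ℝ) (h : 1 < R), Joined (wid h.le ψ₀) (wid h.le ψ₁))) ∧
    (l < 1 → (ConnectedSpace (Emb (V n) l 1) ↔
      ∀ (ψ : Emb (V n) l 1) (a : ℝ), 0 < a → a < l → ∃ (r : ℝ) (Ψ : V n → V n),
        IsSympC r Ψ ∧ r < 1 ∧ ∀ z ∈ ball (0 : V n) a, ψ.1 z = Ψ z)) ∧
    (l ≤ 1 → (∀ a < l, ∃ b, a < b ∧ b < l ∧ ConnectedSpace (Emb (V n) b 1)) →
      ConnectedSpace (Emb (V n) l 1)) :=
  ⟨fun _ _ h => h.bijective,
    fun ψ₀ ψ₁ => ⟨mem_component_iff hl ψ₀ ψ₁, mem_component_iff_isot hl ψ₀ ψ₁,
      mem_component_iff_res hl ψ₀ ψ₁, mem_component_iff_joined_res hl ψ₀ ψ₁,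
      mem_component_iff_wid hl ψ₀ ψ₁, mem_component_iff_joined_wid hl ψ₀ ψ₁⟩,
    fun hl1 => connected_iff_extend hl hl1,
    fun hl1 => connected_of_near hl hl1⟩

end Pool.Agent.Results.MP_1e80f3_gt.ComponentsAreOrbits
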