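import Mathlib
import Pool.Agent.Lib.H88W.R3

/-!
Partial answer to Q1 of MP_1e80f3_gt, in every dimension `2 n` and for every `0 < l < 1`: the
symplectic embeddings `ψ : B(l) → B(1)` such that, for every `0 < a < l`, some affine symplectic map
sends `ψ (closed ball of radius a)` into the open ball of radius `a / l`, form a connected subspace
that contains the inclusion.

Proof (Lib/H88W, Lib/H81X). Fibre lemma: every affine symplectic map `α` is joined to the identity by
affine symplectic maps `α_t` with `|α_t x|² ≤ (1 - t) |x|² + t |α x|²` (polar decomposition, and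
`(P + τ)(1 + τ P)⁻¹` for the positive part), so for every set `U` and `s > 0` the affine symplectic maps
sending `U` into the ball of radius `s` form a path connected set. For `0 < s < 1` let `α` be an affine
symplectic map sending `ψ (s B(l))` with its closure into the ball of radius `s`: the component of
`z ↦ s⁻¹ α (ψ (s z))` does not depend on `α` by the lemma and is locally constant in `s` by compactness;
for `s → 0` and `α = D ψ (0)⁻¹ (· - ψ 0)` these maps tend to the inclusion; for `s → 1` a subsequence of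
the `α` converges, and components are closed.
-/

namespace Pool.Agent.Results.MP_1e80f3_gt.EveryScale

open H88W Set Metric

/-- `ℂⁿ = ℝ²ⁿ`, `z j = x j + i y j`. -/
abbrev V (n : ℕ) := EuclideanSpace ℂ (Fin n)

theorem result (n : ℕ) :
    (∀ u v : V n, om u v = ∑ j, ((u j).re * (v j).im - (u j).im * (v j).re)) ∧
    ∀ l : ℝ, 0 < l → ∀ hl1 : l < 1,
      IsConnected {ψ : Emb (V n) l 1 | Fits ψ} ∧
      Fits (incl hl1.le : Emb (V n) l 1) ∧
      (∀ (ψ : Emb (V n) l 1) (A : V n →L[ℝ] V n), IsSymp A →
        (∀ z ∈ ball (0 : V n) l, z ≠ 0 → ‖A (ψ.1 z - ψ.1 0)‖ < ‖z‖ / l) → Fits ψ) ∧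
      (∀ (ψ : Emb (V n) l 1) (A : V n →L[ℝ] V n), IsSymp A →
        (∀ z ∈ ball (0 : V n) l, ‖A.comp (fderiv ℝ ψ.1 z)‖ < 1 / l) → Fits ψ) ∧
      (ConnectedSpace (Emb (V n) l 1) ↔
        ∀ ψ : Emb (V n) l 1, ∃ φ ∈ connectedComponent ψ, Fits φ) := by
  refine ⟨?_, fun l hl hl1 => ⟨isConnected_fits hl hl1,
    fits_incl hl hl1, fun ψ A hA h => fits_of_linear hl hA h,
    fun ψ A hA h => fits_of_fderiv hl hA h, connected_iff hl hl1⟩⟩
  intro u v
  unfold om
  rw [PiLp.inner_apply, Complex.im_sum]
  refine Finset.sum_congr rfl fun j _ => ?_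
  simp [Complex.mul_im]
  ring

end Pool.Agent.Results.MP_1e80f3_gt.EveryScale
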