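import Mathlib
import Pool.Agent.Lib.H88W.T4

/-!
Partial answer to Q1 of MP_1e80f3_gt, in every dimension `2 n`: a criterion for two symplectic
embeddings `B(l) → B(1)` that differ by a compactly supported symplectomorphism `Ψ` of `ℂⁿ` (whose
support may be larger than the unit ball) to lie in one connected component.

Proof (Lib/H88W, Lib/H81X). Let `K` be the closure of `ψ₀(B(l))`. For a good pair `(v, t)` and an affine
symplectic `α` with `α (Ψ (v + t K)) ⊆ B(t)` the embedding `z ↦ t⁻¹ α (Ψ (v + t ψ₀ z))` is defined; its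
component does not depend on `α` (affine symplectic maps sending a set into a ball form a path
connected set) and is locally constant in `(v, t)` (compactness of `K`). All pairs with small `t` (uniform
linearisation), with large `t` or with large `|v|` (translations) are good, and the component there is
the one of `ψ₀`, since `Ψ` is the identity far out. So a preconnected set of good pairs that leaves every
compact set carries the component of `ψ₀` to the pair `(0, 1)`, where `Ψ ∘ ψ₀` is. Components are closed.
-/

namespace Pool.Agent.Results.MP_1e80f3_gt.GoodPairs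

open H88W Set Metric

/-- `ℂⁿ = ℝ²ⁿ`, `z j = x j + i y j`. -/
abbrev V (n : ℕ) := EuclideanSpace ℂ (Fin n)

theorem result (n : ℕ) (l : ℝ) (hl : 0 < l) :
    (∀ ψ₀ ψ₁ : Emb (V n) l 1, im ψ₀ ⊆ ball 0 1 →
      Related ψ₀ ψ₁ (fun _ Ψ => (∀ z ∈ ball (0 : V n) l, ‖Ψ (ψ₀.1 z)‖ < 1) ∧
        Escapes Ψ (im ψ₀)) → ψ₁ ∈ connectedComponent ψ₀) ∧
    (∀ (hl1 : l < 1) (ψ : Emb (V n) l 1),
      Related (incl hl1.le) ψ (fun _ Ψ => ∀ z : V n, ‖Ψ z‖ < max 1 (‖z‖ / l)) →
      ψ ∈ connectedComponent (incl (W := V n) hl1.le)) :=
  ⟨fun _ _ hK => related_escape hl hK, fun hl1 _ => related_growth hl hl1⟩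

end Pool.Agent.Results.MP_1e80f3_gt.GoodPairs
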